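import Pool.Agent.H87T.Fin3

/-!
# Orthogonality to deterministic sequences for functions which are not strongly aperiodic

Let `f` be multiplicative with values in the closed unit disc and non-pretentious. Suppose that `f` is not
strongly aperiodic (for some Dirichlet character `χ` the minimum over `|t| ≤ x` of the distance
`D(f, χ(n) n^(it); x)` does not tend to infinity), or that for some `χ` the square of the distance does not
grow like `log log x`, uniformly in `t` (`LogAperiodic`).  Then there is a set `X` of upper logarithmic density
`1` such that `(1/x) ∑_{n ≤ x} f(n) a(n) → 0` along `X` for all deterministic sequences `a`.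

In other words: every counterexample to the question is strongly aperiodic and satisfies
`D(f, χ(n) n^(it); x)^2 ≥ c log (log x / log (|t| + 3)) - 1 / c` with `c > 0` depending only on `χ`.
-/

open Finset Filter Topology Pool.Agent.H87S Pool.Agent.H87T

theorem Pool.Agent.Results.MP_43e0d7_nt.IntermediateZone.result (f : ℕ → ℂ) (hf : MultD f)
    (hnp : NonPretentious f) (h : ¬ (StronglyAperiodic f ∧ LogAperiodic f)) :
    ∃ X : Set ℕ, upperLogDensity X = 1 ∧ ∀ a : ℕ → ℂ, Deterministic a →
      Tendsto (fun x : ℕ => (∑ n ∈ Icc 1 x, f n * a n) / x) (atTop ⊓ 𝓟 X) (𝓝 0) :=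
  intermediate f hf hnp h
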