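import Pool.Agent.H87S.Main

/-!
# Orthogonality to deterministic sequences for functions close to moving characters

`f` multiplicative with values in the closed unit disc.

(1) Suppose that for every `B` there are a Dirichlet character `χ` modulo `q`, a real `t` and `u ≥ B`,
`v ≥ (q + u + |t|) ^ B` such that `∑ (1 - Re (f(p) conj χ(p) p^(-it))) / p` is at most `1 / B` over the
primes `u < p ≤ v` and at least `B` over the primes `p ≤ u`, `p ∤ q` (`CharWindows`; `q`, `χ` and `t` may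
depend on `B`, without any bound on `q`).  Then there is a set `X` of upper logarithmic density `1` such that
`(1/x) ∑_{n ≤ x} f(n) a(n) → 0` along `X` for all deterministic sequences `a`.

(2) If for every `B` and all large `x` there are `χ` modulo `q`, `t` and `y` with `B, q, |t| ≤ y`,
`y ^ B ≤ x` such that `∑ |1 - f(p) conj χ(p) p^(-it)| / p` over `y < p ≤ x` is at most `1 / B` and
`∑ (1 - Re (f(p) conj χ(p) p^(-it))) / p` over the primes `p ≤ y`, `p ∤ q` is at least `B`, then this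
holds along all `x`.
-/

open Finset Filter Topology Pool.Agent.H87S

theorem Pool.Agent.Results.MP_43e0d7_nt.MovingCharacters.result (f : ℕ → ℂ) (hf : MultD f) :
    (CharWindows f →
      ∃ X : Set ℕ, upperLogDensity X = 1 ∧ ∀ a : ℕ → ℂ, Deterministic a →
        Tendsto (fun x : ℕ => (∑ n ∈ Icc 1 x, f n * a n) / x) (atTop ⊓ 𝓟 X) (𝓝 0)) ∧
    ((∀ B : ℕ, ∀ᶠ x : ℕ in atTop, ∃ (q : ℕ) (χ : DirichletCharacter ℂ q) (t : ℝ) (y : ℕ),
        1 ≤ q ∧ B ≤ y ∧ q ≤ y ∧ |t| ≤ y ∧ y ^ B ≤ x ∧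
        ∑ p ∈ pr y x, ‖1 - zf f χ t p‖ / p ≤ 1 / B ∧
        (B : ℝ) ≤ ∑ p ∈ (pr 0 y).filter (fun p => ¬ p ∣ q), (1 - (zf f χ t p).re) / p) →
      ∀ a : ℕ → ℂ, Deterministic a →
        Tendsto (fun x : ℕ => (∑ n ∈ Icc 1 x, f n * a n) / x) atTop (𝓝 0)) := by
  refine ⟨?_, ?_⟩
  · exact main f hf
  · intro h a ha
    rw [Metric.tendsto_nhds]
    intro ε hε
    obtain ⟨B, D, η, y0, hB, hη, hfin⟩ := finitary a ha (ε / 2) (by positivity)
    obtain ⟨B1, hB1⟩ := exists_nat_gt (max (max (B : ℝ) D) (max (1 / η) y0))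
    have hB1a : (B : ℝ) < B1 := (le_max_left _ _).trans_lt ((le_max_left _ _).trans_lt hB1)
    have hB1b : D < B1 := (le_max_right _ _).trans_lt ((le_max_left _ _).trans_lt hB1)
    have hB1c : 1 / η < B1 := (le_max_left _ _).trans_lt ((le_max_right _ _).trans_lt hB1)
    have hB1d : (y0 : ℝ) < B1 := (le_max_right _ _).trans_lt ((le_max_right _ _).trans_lt hB1)
    have hBB : B ≤ B1 := by exact_mod_cast hB1a.le
    have hyB : y0 ≤ B1 := by exact_mod_cast hB1d.le
    have hB10 : (0 : ℝ) < B1 := (by positivity : (0 : ℝ) < 1 / η).trans hB1c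
    have hBη : 1 / (B1 : ℝ) ≤ η := by
      rw [div_le_iff₀ hB10]
      rw [div_lt_iff₀ hη] at hB1c
      linarith
    filter_upwards [h B1, eventually_ge_atTop 1] with x hx hx1
    obtain ⟨q, χ, t, y, hq, hBy, hqy, hty, hyx, hs1, hs2⟩ := hx
    have hy1 : 1 ≤ y := hq.trans hqy
    have hx0 : (0 : ℝ) < x := by exact_mod_cast hx1
    have h1 := hfin y x (hyB.trans hBy) ((Nat.pow_le_pow_right hy1 hBB).trans hyx) f hf q χ t hq hqy
      hty (hs1.trans hBη) (hB1b.le.trans hs2)
    rw [dist_zero_right, norm_div, Complex.norm_natCast, div_lt_iff₀ hx0]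
    have : 0 < ε * x := by positivity
    linarith
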